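import Pool.Agent.H.MP_d581c5_al.Inst

set_option autoImplicit false
open scoped Pointwise Classical

namespace Pool.Agent.Results.MP_d581c5_al.ProperExample

theorem result :
    ∃ (G : Type) (_ : Group G) (_ : Countable G) (L : G → ℝ),
      (∀ g, 0 ≤ L g) ∧ L 1 = 0 ∧ (∀ g, L g⁻¹ = L g) ∧ (∀ g h, L (g * h) ≤ L g + L h) ∧
      (∀ r : ℝ, {g : G | L g ≤ r}.Finite) ∧
      (∀ r : ℝ, 0 ≤ r → ∀ S X : Finset G, (∀ s ∈ S, L s ≤ r) →
          (S.card : ℝ) * (X.card : ℝ) ≤ 128 * (1 + r) * ((S * X).card : ℝ)) ∧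
      ¬ ∃ C : ℝ, 0 < C ∧ ∃ d : ℕ, ∀ r : ℝ, 0 ≤ r →
        ∀ (A B : Finset G) (f g : G → ℂ), (∀ y ∈ A, L y ≤ r) →
          ∑ x ∈ A * B, ‖∑ p ∈ (A ×ˢ B).filter (fun p => p.1 * p.2 = x), f p.1 * g p.2‖ ^ 2
            ≤ (C * (1 + r) ^ d) ^ 2 * (∑ y ∈ A, ‖f y‖ ^ 2) * (∑ z ∈ B, ‖g z‖ ^ 2) := by
  refine ⟨H.MP_d581c5_al.G, inferInstance, FreeGroup.toWord_injective.countable,
    H.MP_d581c5_al.L, fun g => Nat.cast_nonneg _,
    by simp [H.MP_d581c5_al.L, H.MP_d581c5_al.Ln_one],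
    fun g => by simp [H.MP_d581c5_al.L, H.MP_d581c5_al.Ln_inv],
    fun g k => by
      simp only [H.MP_d581c5_al.L]
      exact_mod_cast H.MP_d581c5_al.Ln_mul g k,
    H.MP_d581c5_al.proper, ?_, ?_⟩
  · exact @H.MP_d581c5_al.RE1' (fun a b => Classical.propDecidable (a = b))
  · exact @H.MP_d581c5_al.notRD' (fun a b => Classical.propDecidable (a = b))

end Pool.Agent.Results.MP_d581c5_al.ProperExample
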